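import Pool.Agent.Run7.h809.OD.Defs

/-!
# `ζ` is transcendental over `ℚ(u)` (piece IND)

A nonzero polynomial `G` of least degree `n` in `Y` over `ℚ[u]` with `G(ζ) = 0` satisfies a
differential relation coming from `𝒟 ζ = η - ζ²`.  Comparing the evaluations of `G'` and `G''` gives
`θ (g₂/(w² g₁)) = -2(n-1)`, whose constant term forces `n = 1`; and `n = 1` contradicts `RIC`.
-/

set_option autoImplicit false

open PowerSeries

namespace Run7.h709.OD

open H809.OD

open Polynomial in
/-- the evaluation map `ℚ[X] → ℚ⟦X⟧`, `X ↦ u` -/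
noncomputable def ph : ℚ[X] →ₐ[ℚ] ℚ⟦X⟧ := Polynomial.aeval u

/-- the derivation `p d/du` -/
noncomputable def dl : Derivation ℚ (Polynomial ℚ) (Polynomial ℚ) :=
  pp • Polynomial.derivative'

theorem dl_apply (a : Polynomial ℚ) : dl a = pp * Polynomial.derivative a := by
  simp [dl]

/-- `dl` on coefficients -/
noncomputable def dc : Derivation ℚ (Polynomial (Polynomial ℚ)) (Polynomial (Polynomial ℚ)) :=
  PolynomialModule.equivPolynomialSelf.compDer dl.mapCoeffs

theorem coeff_dc (G : Polynomial (Polynomial ℚ)) (i : ℕ) :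
    (dc G).coeff i = pp * Polynomial.derivative (G.coeff i) := by
  rw [← dl_apply]
  rfl

theorem dc_monomial (n : ℕ) (a : Polynomial ℚ) :
    dc (Polynomial.monomial n a) = Polynomial.monomial n (pp * Polynomial.derivative a) := by
  ext1 i
  rw [coeff_dc, Polynomial.coeff_monomial, Polynomial.coeff_monomial]
  split_ifs <;> simp

/-- evaluation at `(u, ζ)` -/
noncomputable def ev : Polynomial (Polynomial ℚ) →+* ℚ⟦X⟧ :=
  Polynomial.eval₂RingHom ph.toRingHom zt

theorem ev_monomial (n : ℕ) (a : Polynomial ℚ) :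
    ev (Polynomial.monomial n a) = ph a * zt ^ n := by
  simp [ev]

theorem ev_C (a : Polynomial ℚ) : ev (Polynomial.C a) = ph a := by
  simp [ev]

theorem ev_X : ev Polynomial.X = zt := by
  simp [ev]

/-- `𝒟` on polynomials in `Y` -/
noncomputable def DD (G : Polynomial (Polynomial ℚ)) : Polynomial (Polynomial ℚ) :=
  dc G + (Polynomial.C eta - Polynomial.X ^ 2) * Polynomial.derivative G

theorem derivative_dc (G : Polynomial (Polynomial ℚ)) :
    Polynomial.derivative (dc G) = dc (Polynomial.derivative G) := by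
  ext1 i
  rw [Polynomial.coeff_derivative, coeff_dc, coeff_dc, Polynomial.coeff_derivative]
  simp
  ring

theorem derivative_DD (G : Polynomial (Polynomial ℚ)) :
    Polynomial.derivative (DD G) =
      DD (Polynomial.derivative G) - 2 * Polynomial.X * Polynomial.derivative G := by
  simp only [DD, Polynomial.derivative_add, Polynomial.derivative_mul, Polynomial.derivative_sub,
    Polynomial.derivative_C, Polynomial.derivative_pow, Polynomial.derivative_X, derivative_dc]
  have h2 : (Polynomial.C (2 : Polynomial ℚ)) = 2 := rfl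
  simp [h2]
  ring

theorem constantCoeff_ph {h0 : constantCoeff u = 0} (P : Polynomial ℚ) :
    constantCoeff (ph P) = P.coeff 0 := by
  rw [ph, Polynomial.aeval_def, Polynomial.hom_eval₂, h0]
  simp [Polynomial.eval₂_at_zero]

variable (h : Theta)

include h

theorem cc_u : constantCoeff u = 0 := by
  rw [← coeff_zero_eq_constantCoeff_apply]; exact h.u_zero

theorem u_ne : u ≠ 0 := by
  intro hu
  have := h.u_one
  rw [hu] at this
  simp at this

theorem cc_w : constantCoeff w = 1 := by
  rw [← coeff_zero_eq_constantCoeff_apply]; exact h.w_zero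

theorem w_ne : w ≠ 0 := by
  intro hw
  have := cc_w h
  rw [hw] at this
  simp at this

theorem w_mul_wi : w * wi = 1 := by
  rw [wi]
  exact PowerSeries.mul_inv_cancel _ (by rw [cc_w h]; exact one_ne_zero)

theorem ph_ne (P : Polynomial ℚ) (hP : P ≠ 0) : ph P ≠ 0 := by
  obtain ⟨Q, hQ⟩ := Polynomial.exists_eq_pow_rootMultiplicity_mul_and_not_dvd P hP 0
  obtain ⟨hQ1, hQ2⟩ := hQ
  rw [Polynomial.C_0, sub_zero] at hQ1 hQ2
  rw [hQ1, map_mul, map_pow]
  have h1 : ph Polynomial.X = u := by simp [ph]
  rw [h1]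
  refine mul_ne_zero (pow_ne_zero _ (u_ne h)) ?_
  intro h2
  have h3 := constantCoeff_ph (h0 := cc_u h) Q
  rw [h2, map_zero] at h3
  exact hQ2 (Polynomial.X_dvd_iff.2 h3.symm)

theorem ph_inj (P Q : Polynomial ℚ) (hPQ : ph P = ph Q) : P = Q := by
  by_contra hne
  have := ph_ne h (P - Q) (sub_ne_zero.2 hne)
  rw [map_sub, hPQ, sub_self] at this
  exact this rfl

theorem th_w : th w = zt * w ^ 3 := by
  rw [zt]
  have := w_mul_wi h
  calc th w = th w * (w * wi) ^ 3 := by rw [this]; ring
    _ = _ := by ring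

theorem th_ph (P : Polynomial ℚ) :
    th (ph P) = w ^ 2 * ph (pp * Polynomial.derivative P) := by
  rw [ph, Derivation.map_aeval, h.th_u, map_mul]
  have : Polynomial.aeval u pp = u * (1 - 4 * u) * (1 - 8 * u) := by
    simp only [pp, map_mul, map_sub, map_one, Polynomial.aeval_X, map_ofNat]
  rw [this, smul_eq_mul]
  ring

omit h in
theorem ph_eta : ph eta = 4 * u * (1 - 4 * u) * (1 - 8 * u) ^ 2 := by
  simp only [ph, eta, map_mul, map_sub, map_one, map_pow, Polynomial.aeval_X, map_ofNat]

theorem th_ev (G : Polynomial (Polynomial ℚ)) : th (ev G) = w ^ 2 * ev (DD G) := by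
  induction G using Polynomial.induction_on' with
  | add p q hp hq =>
    have : DD (p + q) = DD p + DD q := by
      simp only [DD, map_add]
      ring
    rw [map_add, map_add, hp, hq, this, map_add]
    ring
  | monomial n a =>
    rw [ev_monomial, Derivation.leibniz, Derivation.leibniz_pow, th_ph h, h.th_zt, DD, dc_monomial,
      Polynomial.derivative_monomial, map_add ev, map_mul ev, map_sub ev, map_pow ev, ev_monomial,
      ev_monomial, ev_C, ev_X, ph_eta, map_mul ph a, map_natCast ph]
    simp only [smul_eq_mul, nsmul_eq_mul]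
    ring

omit h in
/-- a logarithmic-derivative type equation has no solution with nonzero constant -/
theorem const_zero (a b : ℚ⟦X⟧) (k : ℚ) (hb : b ≠ 0)
    (hab : b * th a - a * th b = PowerSeries.C k * b ^ 2) : k = 0 := by
  obtain ⟨m, b0, hb0, hbe⟩ : ∃ (m : ℕ) (b0 : ℚ⟦X⟧), constantCoeff b0 ≠ 0 ∧ b = X ^ m * b0 := by
    refine ⟨b.order.toNat, divXPowOrder b, ?_, X_pow_order_mul_divXPowOrder.symm⟩
    rw [Ne, constantCoeff_divXPowOrder_eq_zero_iff]
    exact hb
  have hinv : b0 * b0⁻¹ = 1 := PowerSeries.mul_inv_cancel _ hb0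
  have hb0n : b0 ≠ 0 := by
    rintro rfl
    simp at hb0
  obtain ⟨a1, ha⟩ : ∃ a1 : ℚ⟦X⟧, a = a1 * b0 :=
    ⟨a * b0⁻¹, by rw [mul_assoc, mul_comm b0⁻¹, hinv, mul_one]⟩
  have hX : th ((X : ℚ⟦X⟧) ^ m) = (m : ℚ⟦X⟧) * X ^ m := by
    rw [Derivation.leibniz_pow]
    have : th (X : ℚ⟦X⟧) = X := by
      simp [th]
    rw [this]
    cases m with
    | zero => simp
    | succ m => simp [pow_succ]
  have key : (X : ℚ⟦X⟧) ^ m * b0 ^ 2 * (th a1 - (m : ℚ⟦X⟧) * a1) =
      X ^ m * b0 ^ 2 * (PowerSeries.C k * X ^ m) := by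
    have h1 := hab
    rw [ha, hbe, Derivation.leibniz th a1 b0, Derivation.leibniz th (X ^ m) b0, hX] at h1
    simp only [smul_eq_mul] at h1
    linear_combination h1
  have hne : (X : ℚ⟦X⟧) ^ m * b0 ^ 2 ≠ 0 :=
    mul_ne_zero (pow_ne_zero _ PowerSeries.X_ne_zero) (pow_ne_zero _ hb0n)
  have key2 := mul_left_cancel₀ hne key
  have key3 := congrArg (coeff m) key2
  have hth : coeff m (th a1) = m * coeff m a1 := by
    rw [th, Derivation.smul_apply, smul_eq_mul]
    cases m with
    | zero => simp
    | succ m =>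
      rw [coeff_succ_X_mul, coeff_derivative]
      push_cast
      ring
  have hm : coeff m ((m : ℚ⟦X⟧) * a1) = m * coeff m a1 := by
    rw [← map_natCast (PowerSeries.C (R := ℚ)) m, coeff_C_mul]
  rw [map_sub, hth, hm, sub_self, coeff_C_mul, coeff_X_pow_self, mul_one] at key3
  exact key3.symm

theorem ev_ne (hr : S_Ric) (G : Polynomial (Polynomial ℚ)) (hG : ev G = 0) : G = 0 := by
  classical
  by_contra hG0
  have hex : ∃ n : ℕ, ∃ G : Polynomial (Polynomial ℚ), G ≠ 0 ∧ ev G = 0 ∧ G.natDegree = n :=
    ⟨_, G, hG0, hG, rfl⟩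
  obtain ⟨G, hG0, hG, hn⟩ := Nat.find_spec hex
  have hmin : ∀ H : Polynomial (Polynomial ℚ), ev H = 0 → H.natDegree < Nat.find hex → H = 0 := by
    intro H hH hlt
    by_contra hH0
    exact Nat.find_min hex hlt ⟨H, hH0, hH, rfl⟩
  generalize Nat.find hex = n at hn hmin
  -- the degree is positive
  have hc0 : G.leadingCoeff ≠ 0 := Polynomial.leadingCoeff_ne_zero.2 hG0
  set c := G.coeff n with hc
  have hcn : c ≠ 0 := by
    rw [hc, ← hn]; exact hc0
  have hn1 : 1 ≤ n := by
    by_contra hlt
    have h0 : n = 0 := by omega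
    have h1 : G = Polynomial.C c := by
      rw [hc, h0]
      exact Polynomial.eq_C_of_natDegree_eq_zero (hn.trans h0)
    rw [h1, ev_C] at hG
    exact ph_ne h c hcn hG
  have hbig : ∀ m, n < m → G.coeff m = 0 := fun m hm =>
    Polynomial.coeff_eq_zero_of_natDegree_lt (hn ▸ hm)
  -- the reduced derivative
  set H : Polynomial (Polynomial ℚ) := DD G + Polynomial.C (n : Polynomial ℚ) * (Polynomial.X * G)
    with hH
  set d := H.coeff n with hd
  have hevH : ev H = 0 := by
    have h1 := th_ev h G
    rw [hG, map_zero] at h1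
    have h2 : ev (DD G) = 0 := by
      rcases mul_eq_zero.1 h1.symm with h3 | h3
      · exact absurd h3 (pow_ne_zero _ (w_ne h))
      · exact h3
    rw [hH, map_add, h2, map_mul, map_mul, hG]
    ring
  have hHbig : ∀ m, n < m → H.coeff m = 0 := by
    intro m hm
    obtain ⟨j, rfl⟩ : ∃ j, m = j + 2 := ⟨m - 2, by omega⟩
    have e1 : (Polynomial.X ^ 2 * Polynomial.derivative G).coeff (j + 2) =
        (Polynomial.derivative G).coeff j := by
      rw [mul_comm, Polynomial.coeff_mul_X_pow]
    have e2 : (Polynomial.X * G).coeff (j + 2) = G.coeff (j + 1) :=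
      Polynomial.coeff_X_mul G (j + 1)
    rw [hH, DD, Polynomial.coeff_add, Polynomial.coeff_add, sub_mul, Polynomial.coeff_sub,
      Polynomial.coeff_C_mul, Polynomial.coeff_C_mul, e1, e2, coeff_dc, hbig _ hm,
      Polynomial.coeff_derivative, Polynomial.coeff_derivative, hbig (j + 2 + 1) (by omega)]
    rcases Nat.lt_or_ge n (j + 1) with h1 | h1
    · rw [hbig _ h1]; simp
    · have h2 : n = j + 1 := by omega
      rw [h2]
      simp
      ring
  have hK : Polynomial.C c * H = Polynomial.C d * G := by
    by_contra hne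
    have hK0 : Polynomial.C c * H - Polynomial.C d * G ≠ 0 := sub_ne_zero.2 hne
    have hKc : ∀ m, n ≤ m → (Polynomial.C c * H - Polynomial.C d * G).coeff m = 0 := by
      intro m hm
      rw [Polynomial.coeff_sub, Polynomial.coeff_C_mul, Polynomial.coeff_C_mul]
      rcases Nat.eq_or_lt_of_le hm with h1 | h1
      · rw [← h1, ← hc, ← hd]; ring
      · rw [hHbig m h1, hbig m h1]; ring
    refine hK0 (hmin _ ?_ ?_)
    · rw [map_sub, map_mul, map_mul, hevH, hG]; ring
    · by_contra hge
      exact hK0 (Polynomial.leadingCoeff_eq_zero.1 (hKc _ (not_lt.1 hge)))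
  -- differentiate in `Y`
  have hK1 : Polynomial.C c * (DD (Polynomial.derivative G) +
      (Polynomial.C (n : Polynomial ℚ) - 2) * Polynomial.X * Polynomial.derivative G +
      Polynomial.C (n : Polynomial ℚ) * G) = Polynomial.C d * Polynomial.derivative G := by
    have := congrArg Polynomial.derivative hK
    rw [Polynomial.derivative_C_mul, Polynomial.derivative_C_mul, hH, Polynomial.derivative_add,
      derivative_DD, Polynomial.derivative_C_mul, Polynomial.derivative_mul,
      Polynomial.derivative_X] at this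
    rw [← this]
    ring
  have hK2 : Polynomial.C c * (DD (Polynomial.derivative (Polynomial.derivative G)) +
      (Polynomial.C (n : Polynomial ℚ) - 4) * Polynomial.X *
        Polynomial.derivative (Polynomial.derivative G) +
      (2 * Polynomial.C (n : Polynomial ℚ) - 2) * Polynomial.derivative G) =
      Polynomial.C d * Polynomial.derivative (Polynomial.derivative G) := by
    have := congrArg Polynomial.derivative hK1
    rw [Polynomial.derivative_C_mul, Polynomial.derivative_C_mul, Polynomial.derivative_add,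
      Polynomial.derivative_add,
      derivative_DD, Polynomial.derivative_C_mul, Polynomial.derivative_mul,
      Polynomial.derivative_mul, Polynomial.derivative_sub,
      Polynomial.derivative_X, Polynomial.derivative_C, Polynomial.derivative_ofNat] at this
    rw [← this]
    ring
  set g1 := ev (Polynomial.derivative G) with hg1
  set g2 := ev (Polynomial.derivative (Polynomial.derivative G)) with hg2
  have hphn : ph (n : Polynomial ℚ) = (n : ℚ⟦X⟧) := map_natCast _ _
  have E1 := congrArg ev hK1
  have E2 := congrArg ev hK2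
  simp only [map_mul, map_add, map_sub, ev_C, ev_X, hphn, hG, map_ofNat, mul_zero, add_zero] at E1 E2
  rw [← hg1] at E1 E2
  rw [← hg2] at E2
  have T1 := th_ev h (Polynomial.derivative G)
  have T2 := th_ev h (Polynomial.derivative (Polynomial.derivative G))
  rw [← hg1] at T1
  rw [← hg2] at T2
  set e1 := ev (DD (Polynomial.derivative G))
  set e2 := ev (DD (Polynomial.derivative (Polynomial.derivative G)))
  have hphc : ph c ≠ 0 := ph_ne h c hcn
  have cross : g2 * (e1 + ((n : ℚ⟦X⟧) - 2) * zt * g1) -
      g1 * (e2 + ((n : ℚ⟦X⟧) - 4) * zt * g2 + (2 * (n : ℚ⟦X⟧) - 2) * g1) = 0 := by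
    refine (mul_eq_zero.1 (?_ : ph c * _ = 0)).resolve_left hphc
    linear_combination g2 * E1 - g1 * E2
  have hg1ne : g1 ≠ 0 := by
    intro h0
    have h1 : Polynomial.derivative G = 0 := by
      refine hmin _ h0 ?_
      have := Polynomial.natDegree_derivative_lt (p := G) (by omega)
      omega
    have h2 := congrArg (fun P => Polynomial.coeff P (n - 1)) h1
    simp only [Polynomial.coeff_derivative, Polynomial.coeff_zero] at h2
    have h3 : n - 1 + 1 = n := by omega
    rw [h3, ← hc] at h2
    rcases mul_eq_zero.1 h2 with h4 | h4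
    · exact hcn h4
    · have h5 : ((n - 1 : ℕ) : Polynomial ℚ) + 1 = ((n - 1 + 1 : ℕ) : Polynomial ℚ) := by push_cast; ring
      rw [h5, h3] at h4
      have : (n : Polynomial ℚ) ≠ 0 := Nat.cast_ne_zero.2 (by omega)
      exact this h4
  have hww := w_mul_wi h
  have hthwi : th wi = - (zt * w) := by
    have h1 : th (w * wi) = 0 := by rw [hww]; exact Derivation.map_one_eq_zero _
    rw [Derivation.leibniz, th_w h, smul_eq_mul, smul_eq_mul] at h1
    have h2 : w * (th wi + zt * w) = 0 := by
      have : wi * (zt * w ^ 3) = zt * w ^ 2 * (w * wi) := by ring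
      rw [this, hww] at h1
      linear_combination h1
    have h3 := (mul_eq_zero.1 h2).resolve_left (w_ne h)
    linear_combination h3
  have hn_eq : n = 1 := by
    have hk := const_zero (g2 * wi ^ 2) g1 (-(2 * (n : ℚ) - 2)) hg1ne ?_
    · have h1 : (n : ℚ) = 1 := by linarith
      exact_mod_cast h1
    · have hC : (PowerSeries.C (-(2 * (n : ℚ) - 2)) : ℚ⟦X⟧) = -(2 * (n : ℚ⟦X⟧) - 2) := by
        rw [map_neg, map_sub, map_mul, map_natCast, map_ofNat]
      rw [hC, Derivation.leibniz, Derivation.leibniz_pow, T1, T2, hthwi]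
      simp only [smul_eq_mul, nsmul_eq_mul]
      have h1 : w ^ 2 * wi ^ 2 = 1 := by rw [← mul_pow, hww, one_pow]
      push_cast
      linear_combination (-(1 : ℚ⟦X⟧)) * cross - (g2 * e1 - g1 * e2) * h1 - 2 * g1 * g2 * zt * hww
  -- degree one
  subst hn_eq
  have hG1 : G = Polynomial.C c * Polynomial.X + Polynomial.C (G.coeff 0) := by
    rw [hc]
    exact Polynomial.eq_X_add_C_of_natDegree_le_one (le_of_eq hn)
  set A := - G.coeff 0 with hA
  have hA' : G.coeff 0 = - A := by rw [hA]; ring
  have F0 : ph c * zt = ph A := by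
    rw [hG1, hA', map_add, map_mul, ev_C, ev_X, ev_C, map_neg] at hG
    linear_combination hG
  have F1 := congrArg th F0
  rw [Derivation.leibniz, th_ph h, th_ph h, h.th_zt] at F1
  simp only [smul_eq_mul] at F1
  have F2 : ph c * (ph eta - zt ^ 2) + zt * ph (pp * Polynomial.derivative c) =
      ph (pp * Polynomial.derivative A) := by
    refine mul_left_cancel₀ (pow_ne_zero 2 (w_ne h)) ?_
    rw [ph_eta]
    linear_combination F1
  refine hr A c hcn (ph_inj h _ _ ?_)
  simp only [map_mul, map_add, map_sub, map_pow] at F2 ⊢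
  linear_combination (-(ph c)) * F2 + (ph pp * ph (Polynomial.derivative c) - ph c * zt - ph A) * F0

/-- Statement IND. -/
theorem ind (hr : S_Ric) : S_Ind := by
  intro n c hsum b hb
  have h1 := ev_ne h hr (∑ b ∈ Finset.range n, Polynomial.monomial b (c b)) ?_
  · have h2 := congrArg (fun P => Polynomial.coeff P b) h1
    simpa [Polynomial.finsetSum_coeff, Polynomial.coeff_monomial, hb] using h2
  · rw [map_sum, ← hsum]
    refine Finset.sum_congr rfl fun b _ => ?_
    rw [ev_monomial]
    rfl

end Run7.h709.OD
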