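import Pool.Agent.Run7.h709.OD.Ind
import Pool.Agent.Run7.h809.OD.Stm2

/-!
# Growth of the coefficients (piece GROW)
-/

set_option autoImplicit false

open PowerSeries

namespace Run7.h709.OD

open H809.OD

/-- the truncated weighted `l¹` norm -/
noncomputable def nm (r : ℝ) (n : ℕ) (f : ℚ⟦X⟧) : ℝ :=
  ∑ i ∈ Finset.range (n + 1), |((coeff i f : ℚ) : ℝ)| * r ^ i

section nm

variable {r : ℝ} (hr : 0 ≤ r) (n : ℕ)

include hr

theorem nm_nonneg (f : ℚ⟦X⟧) : 0 ≤ nm r n f :=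
  Finset.sum_nonneg fun i _ => by positivity

theorem le_nm (f : ℚ⟦X⟧) : |((coeff n f : ℚ) : ℝ)| * r ^ n ≤ nm r n f :=
  Finset.single_le_sum (f := fun i => |((coeff i f : ℚ) : ℝ)| * r ^ i)
    (fun i _ => by positivity) (Finset.mem_range.2 (Nat.lt_succ_self n))

theorem nm_mul (f g : ℚ⟦X⟧) : nm r n (f * g) ≤ nm r n f * nm r n g := by
  classical
  unfold nm
  rw [Finset.sum_mul_sum, ← Finset.sum_product']
  have h1 : ∀ i ∈ Finset.range (n + 1), |((coeff i (f * g) : ℚ) : ℝ)| * r ^ i ≤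
      ∑ p ∈ Finset.HasAntidiagonal.antidiagonal i, (|((coeff p.1 f : ℚ) : ℝ)| * r ^ p.1) *
        (|((coeff p.2 g : ℚ) : ℝ)| * r ^ p.2) := by
    intro i _
    rw [coeff_mul]
    push_cast
    calc |∑ p ∈ Finset.HasAntidiagonal.antidiagonal i, ((coeff p.1 f : ℚ) : ℝ) * ((coeff p.2 g : ℚ) : ℝ)| * r ^ i
        ≤ (∑ p ∈ Finset.HasAntidiagonal.antidiagonal i,
            |((coeff p.1 f : ℚ) : ℝ) * ((coeff p.2 g : ℚ) : ℝ)|) * r ^ i := by
          gcongr
          exact Finset.abs_sum_le_sum_abs _ _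
      _ = _ := by
          rw [Finset.sum_mul]
          refine Finset.sum_congr rfl fun p hp => ?_
          rw [abs_mul, ← Finset.HasAntidiagonal.mem_antidiagonal.1 hp, pow_add]
          ring
  refine (Finset.sum_le_sum h1).trans ?_
  rw [← Finset.sum_biUnion]
  · refine Finset.sum_le_sum_of_subset_of_nonneg ?_ fun p _ _ => by positivity
    intro p hp
    obtain ⟨i, hi, hp⟩ := Finset.mem_biUnion.1 hp
    have h2 := Finset.HasAntidiagonal.mem_antidiagonal.1 hp
    have h3 := Finset.mem_range.1 hi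
    rw [Finset.mem_product, Finset.mem_range, Finset.mem_range]
    omega
  · intro i _ j _ hij
    rw [Function.onFun, Finset.disjoint_left]
    intro p hp hq
    exact hij ((Finset.HasAntidiagonal.mem_antidiagonal.1 hp).symm.trans (Finset.HasAntidiagonal.mem_antidiagonal.1 hq))

theorem nm_add (f g : ℚ⟦X⟧) : nm r n (f + g) ≤ nm r n f + nm r n g := by
  unfold nm
  rw [← Finset.sum_add_distrib]
  refine Finset.sum_le_sum fun i _ => ?_
  rw [map_add, ← add_mul]
  push_cast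
  gcongr
  exact abs_add_le _ _

theorem nm_le_of (f g : ℚ⟦X⟧) (c : ℝ)
    (h : ∀ i ≤ n, |((coeff i f : ℚ) : ℝ)| ≤ c * |((coeff i g : ℚ) : ℝ)|) :
    nm r n f ≤ c * nm r n g := by
  unfold nm
  rw [Finset.mul_sum]
  refine Finset.sum_le_sum fun i hi => ?_
  rw [← mul_assoc]
  have := h i (Nat.lt_succ_iff.1 (Finset.mem_range.1 hi))
  gcongr

theorem nm_C_mul (a : ℚ) (f : ℚ⟦X⟧) : nm r n (PowerSeries.C a * f) ≤ |(a : ℝ)| * nm r n f := by
  refine nm_le_of hr n _ _ _ fun i _ => ?_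
  rw [coeff_C_mul]
  push_cast
  rw [abs_mul]

omit hr in
theorem nm_one : nm r n 1 = 1 := by
  unfold nm
  rw [Finset.sum_eq_single 0]
  · simp
  · intro i _ hi
    rw [coeff_one, if_neg hi]
    simp
  · intro h; exact absurd (Finset.mem_range.2 (Nat.succ_pos n)) h

theorem nm_pow (f : ℚ⟦X⟧) (k : ℕ) : nm r n (f ^ k) ≤ nm r n f ^ k := by
  induction k with
  | zero => simp [nm_one]
  | succ k ih =>
    rw [pow_succ, pow_succ]
    refine (nm_mul hr n _ _).trans ?_
    have := nm_nonneg hr n f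
    gcongr

theorem nm_sum {ι : Type*} (s : Finset ι) (f : ι → ℚ⟦X⟧) :
    nm r n (∑ i ∈ s, f i) ≤ ∑ i ∈ s, nm r n (f i) := by
  classical
  induction s using Finset.induction_on with
  | empty => simp [nm]
  | insert a s ha ih =>
    rw [Finset.sum_insert ha, Finset.sum_insert ha]
    exact (nm_add hr n _ _).trans (by gcongr)

end nm

theorem nm_phi {r : ℝ} (hr : 0 < r) (hr1 : r < 1) (n : ℕ) : nm r n phi ≤ 2 / (1 - r) := by
  have h1 : ∀ i ∈ Finset.range (n + 1), |((coeff i phi : ℚ) : ℝ)| * r ^ i ≤ 2 * r ^ i := by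
    intro i _
    gcongr
    rw [phi, coeff_mk]
    split_ifs <;> norm_num
  refine (Finset.sum_le_sum h1).trans ?_
  rw [← Finset.mul_sum, geom_sum_eq (ne_of_lt hr1)]
  have h2 : (0 : ℝ) < 1 - r := by linarith
  have h3 : (r ^ (n + 1) - 1) / (r - 1) = (1 - r ^ (n + 1)) / (1 - r) := by
    rw [← neg_div_neg_eq]
    ring_nf
  rw [h3, ← mul_div_assoc]
  have h4 : 0 ≤ r ^ (n + 1) := by positivity
  gcongr
  linarith

/-- `v = (w - w⁻)/8 = u w` -/
noncomputable def vv : ℚ⟦X⟧ := C (1 / 8 : ℚ) * (w - ng w)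

theorem coeff_th (i : ℕ) (f : ℚ⟦X⟧) : coeff i (th f) = i * coeff i f := by
  rw [th, Derivation.smul_apply, smul_eq_mul]
  cases i with
  | zero => simp
  | succ m =>
    rw [coeff_succ_X_mul, coeff_derivative]
    push_cast
    ring

variable (h : Theta)

include h

theorem u_mul_w : u * w = vv := by
  have := w_mul_wi h
  calc u * w = vv * (w * wi) := by rw [u, vv]; ring
    _ = vv := by rw [this, mul_one]

theorem zt_mul (b : ℕ) : w ^ (3 * b) * zt ^ b = (th w) ^ b := by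
  have h1 := w_mul_wi h
  have h2 : w ^ 3 * zt = th w := by
    rw [th_w h]; ring
  rw [pow_mul, ← mul_pow, h2]

/-- the decomposition of the rows -/
theorem row_eq (N d K D j k b : ℕ) (F : ℚ⟦X⟧) (hj : j ≤ D) (hk : k ≤ K) (hb : b ≤ N * K) :
    w ^ (D + 4 * N * K) * row N d F j k b =
      w ^ (D - j) * vv ^ j * (th w ^ b * w ^ (3 * (N * K - b))) * w ^ (N * (K - k)) *
        (2 ^ (d + 1) * F) ^ k := by
  have hww := w_mul_wi h
  have e1 : w ^ (N * k) * wi ^ (N * k) = 1 := by rw [← mul_pow, hww, one_pow]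
  obtain ⟨D', rfl⟩ := Nat.exists_eq_add_of_le hj
  obtain ⟨K', rfl⟩ := Nat.exists_eq_add_of_le hk
  obtain ⟨B, hB⟩ := Nat.exists_eq_add_of_le hb
  have e2 : N * (k + K') - b = B := by omega
  have e3 : k + K' - k = K' := by omega
  have e4 : j + D' - j = D' := by omega
  have e5 : j + D' + 4 * N * (k + K') = D' + j + 3 * B + 3 * b + N * K' + N * k := by
    have : 4 * N * (k + K') = 3 * (N * (k + K')) + N * K' + N * k := by ring
    rw [this, hB]; ring
  rw [e2, e3, e4, e5, ← zt_mul h b, ← u_mul_w h, row]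
  have e6 : (2 ^ (d + 1) * F * wi ^ N) ^ k = (2 ^ (d + 1) * F) ^ k * wi ^ (N * k) := by
    rw [mul_pow, pow_mul]
  rw [e6]
  calc w ^ (D' + j + 3 * B + 3 * b + N * K' + N * k) *
        (u ^ j * zt ^ b * ((2 ^ (d + 1) * F) ^ k * wi ^ (N * k)))
      = w ^ D' * (u * w) ^ j * (w ^ (3 * b) * zt ^ b * w ^ (3 * B)) * w ^ (N * K') *
        (2 ^ (d + 1) * F) ^ k * (w ^ (N * k) * wi ^ (N * k)) := by
          rw [pow_add, pow_add, pow_add, pow_add, pow_add, mul_pow]; ring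
    _ = _ := by rw [e1, mul_one]

/-- Statement GROW. -/
theorem grow : S_Grow := by
  intro N R F hR hF hF0
  set d := R.natDegree with hd
  set L : ℝ := ∑ i ∈ Finset.range (d + 1), |((R.coeff i : ℤ) : ℝ)| with hL
  have hL0 : 0 ≤ L := Finset.sum_nonneg fun i _ => abs_nonneg _
  refine ⟨1 + 2 ^ (d + 1) * L, by nlinarith [pow_pos (two_pos : (0 : ℝ) < 2) (d + 1)], ?_⟩
  intro r hr hr1 K D n j k b hj hk hb
  set P : ℝ := 2 / (1 - r) with hP
  have h1r : 0 < 1 - r := by linarith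
  have hP1 : 1 ≤ P := by
    rw [hP, le_div_iff₀ h1r]; linarith
  have hP0 : 0 ≤ P := by linarith
  have hr0 : 0 ≤ r := hr.le
  have nw : nm r n w ≤ P ^ 2 := by
    rw [w]
    refine (nm_pow hr0 n _ 2).trans ?_
    have := nm_nonneg hr0 n phi
    have := nm_phi hr hr1 n
    gcongr
  have hv : ∀ i, |((coeff i vv : ℚ) : ℝ)| ≤ 1 * |((coeff i w : ℚ) : ℝ)| := by
    intro i
    have h2 : coeff i vv = 1 / 8 * (coeff i w - (-1) ^ i * coeff i w) := by
      rw [vv, coeff_C_mul, map_sub, ng, coeff_rescale]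
    rw [h2, one_mul]
    push_cast
    rcases neg_one_pow_eq_or ℝ i with h3 | h3
    · rw [h3]; simp
    · rw [h3]
      have : (1 / 8 : ℝ) * (((coeff i w : ℚ) : ℝ) - -1 * ((coeff i w : ℚ) : ℝ)) =
        (1 / 4) * ((coeff i w : ℚ) : ℝ) := by ring
      rw [this, abs_mul]
      have h4 := abs_nonneg ((coeff i w : ℚ) : ℝ)
      have h5 : |(1 / 4 : ℝ)| = 1 / 4 := abs_of_pos (by norm_num)
      rw [h5]
      linarith
  have nv : nm r n vv ≤ P ^ 2 := by
    refine (nm_le_of hr0 n vv w 1 fun i _ => hv i).trans ?_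
    rw [one_mul]; exact nw
  have nthw : nm r n (th w) ≤ (n + 1) * P ^ 2 := by
    refine (nm_le_of hr0 n (th w) w (n + 1) fun i hi => ?_).trans ?_
    · rw [coeff_th]
      push_cast
      rw [abs_mul]
      have h2 : |(i : ℝ)| ≤ n + 1 := by
        rw [abs_of_nonneg (by positivity)]
        have : (i : ℝ) ≤ n := by exact_mod_cast hi
        linarith
      gcongr
    · gcongr
  have nf : nm r n (w ^ (N + 2) * Polynomial.aeval u R) ≤ L * P ^ (2 * (N + 2)) := by
    have h2 : w ^ (N + 2) * Polynomial.aeval u R =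
        ∑ i ∈ Finset.range (d + 1), PowerSeries.C ((R.coeff i : ℤ) : ℚ) *
          (vv ^ i * w ^ (N + 2 - i)) := by
      rw [Polynomial.aeval_eq_sum_range, Finset.mul_sum]
      refine Finset.sum_congr rfl fun i hi => ?_
      have hi' : i ≤ N + 2 := by
        have := Finset.mem_range.1 hi
        omega
      rw [← u_mul_w h]
      have h3 : w ^ (N + 2) = w ^ i * w ^ (N + 2 - i) := by
        rw [← pow_add]; congr 1; omega
      rw [h3, Algebra.smul_def, eq_intCast, mul_pow]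
      have h4 : (PowerSeries.C ((R.coeff i : ℤ) : ℚ) : ℚ⟦X⟧) = ((R.coeff i : ℤ) : ℚ⟦X⟧) := by
        rw [map_intCast]
      rw [h4]
      ring
    rw [h2]
    refine (nm_sum hr0 n _ _).trans ?_
    rw [hL, Finset.sum_mul]
    refine Finset.sum_le_sum fun i hi => ?_
    have hi' : i ≤ N + 2 := by
      have := Finset.mem_range.1 hi
      omega
    refine (nm_C_mul hr0 n _ _).trans ?_
    have h3 : nm r n (vv ^ i * w ^ (N + 2 - i)) ≤ P ^ (2 * (N + 2)) := by
      refine (nm_mul hr0 n _ _).trans ?_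
      have h4 := nm_pow hr0 n vv i
      have h5 := nm_pow hr0 n w (N + 2 - i)
      have h6 := nm_nonneg hr0 n vv
      have h7 := nm_nonneg hr0 n w
      have h8 := nm_nonneg hr0 n (w ^ (N + 2 - i))
      calc nm r n (vv ^ i) * nm r n (w ^ (N + 2 - i))
          ≤ (P ^ 2) ^ i * (P ^ 2) ^ (N + 2 - i) := by
            refine mul_le_mul (h4.trans ?_) (h5.trans ?_) h8 (by positivity)
            · gcongr
            · gcongr
        _ = P ^ (2 * (N + 2)) := by
            rw [← pow_add, ← pow_mul]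
            congr 2
            omega
    push_cast
    gcongr
  have nF : nm r n (2 ^ (d + 1) * F) ≤ 2 ^ (d + 1) * (L * P ^ (2 * (N + 2))) := by
    have h2 : (2 ^ (d + 1) * F : ℚ⟦X⟧) = PowerSeries.C ((2 : ℚ) ^ (d + 1)) * F := by
      rw [map_pow, map_ofNat]
    rw [h2]
    refine (nm_C_mul hr0 n _ _).trans ?_
    have h3 : nm r n F ≤ nm r n (w ^ (N + 2) * Polynomial.aeval u R) := by
      have h4 := nm_le_of hr0 n F (w ^ (N + 2) * Polynomial.aeval u R) 1 fun i _ => ?_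
      · rwa [one_mul] at h4
      · rw [← hF, coeff_th, one_mul]
        push_cast
        rw [abs_mul]
        rcases Nat.eq_zero_or_pos i with h5 | h5
        · rw [h5, hF0]; simp
        · have h6 : (1 : ℝ) ≤ |(i : ℝ)| := by
            rw [abs_of_nonneg (by positivity)]
            exact_mod_cast h5
          have h7 := abs_nonneg ((coeff i F : ℚ) : ℝ)
          nlinarith
    push_cast
    have h5 : |(2 : ℝ) ^ (d + 1)| = 2 ^ (d + 1) := abs_of_pos (by positivity)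
    rw [h5]
    have := h3.trans nf
    gcongr
  have hnn : ∀ f, 0 ≤ nm r n f := nm_nonneg hr0 n
  -- assembly
  rw [row_eq h N d K D j k b F hj hk hb]
  refine (le_nm hr0 n _).trans ?_
  have step1 : nm r n (w ^ (D - j) * vv ^ j * (th w ^ b * w ^ (3 * (N * K - b))) *
      w ^ (N * (K - k)) * (2 ^ (d + 1) * F) ^ k) ≤
      (P ^ 2) ^ (D - j) * (P ^ 2) ^ j * ((((n : ℝ) + 1) * P ^ 2) ^ b *
        (P ^ 2) ^ (3 * (N * K - b))) * (P ^ 2) ^ (N * (K - k)) *
        (2 ^ (d + 1) * (L * P ^ (2 * (N + 2)))) ^ k := by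
    have a1 : nm r n (w ^ (D - j)) ≤ (P ^ 2) ^ (D - j) :=
      (nm_pow hr0 n _ _).trans (pow_le_pow_left₀ (hnn _) nw _)
    have a2 : nm r n (vv ^ j) ≤ (P ^ 2) ^ j :=
      (nm_pow hr0 n _ _).trans (pow_le_pow_left₀ (hnn _) nv _)
    have a3 : nm r n (th w ^ b) ≤ (((n : ℝ) + 1) * P ^ 2) ^ b :=
      (nm_pow hr0 n _ _).trans (pow_le_pow_left₀ (hnn _) nthw _)
    have a4 : nm r n (w ^ (3 * (N * K - b))) ≤ (P ^ 2) ^ (3 * (N * K - b)) :=
      (nm_pow hr0 n _ _).trans (pow_le_pow_left₀ (hnn _) nw _)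
    have a5 : nm r n (w ^ (N * (K - k))) ≤ (P ^ 2) ^ (N * (K - k)) :=
      (nm_pow hr0 n _ _).trans (pow_le_pow_left₀ (hnn _) nw _)
    have a6 : nm r n ((2 ^ (d + 1) * F) ^ k) ≤ (2 ^ (d + 1) * (L * P ^ (2 * (N + 2)))) ^ k :=
      (nm_pow hr0 n _ _).trans (pow_le_pow_left₀ (hnn _) nF _)
    refine (nm_mul hr0 n _ _).trans (mul_le_mul ?_ a6 (hnn _) (by positivity))
    refine (nm_mul hr0 n _ _).trans (mul_le_mul ?_ a5 (hnn _) (by positivity))
    refine (nm_mul hr0 n _ _).trans (mul_le_mul ?_ ?_ (hnn _) (by positivity))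
    · exact (nm_mul hr0 n _ _).trans (mul_le_mul a1 a2 (hnn _) (by positivity))
    · exact (nm_mul hr0 n _ _).trans (mul_le_mul a3 a4 (hnn _) (by positivity))
  refine step1.trans ?_
  obtain ⟨D', rfl⟩ := Nat.exists_eq_add_of_le hj
  obtain ⟨K', rfl⟩ := Nat.exists_eq_add_of_le hk
  obtain ⟨B, hB⟩ := Nat.exists_eq_add_of_le hb
  have e2 : N * (k + K') - b = B := by omega
  have e3 : k + K' - k = K' := by omega
  have e4 : j + D' - j = D' := by omega
  rw [e2, e3, e4]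
  set Q : ℝ := (n : ℝ) + 1 with hQ
  have hQ1 : 1 ≤ Q := by rw [hQ]; linarith [Nat.cast_nonneg (α := ℝ) n]
  set C : ℝ := 1 + 2 ^ (d + 1) * L with hC
  have hC1 : 1 ≤ C := by
    rw [hC]
    have : 0 ≤ 2 ^ (d + 1) * L := by positivity
    linarith
  have hCL : 2 ^ (d + 1) * L ≤ C := by rw [hC]; linarith
  have e5 : (P ^ 2) ^ D' * (P ^ 2) ^ j * ((Q * P ^ 2) ^ b * (P ^ 2) ^ (3 * B)) *
      (P ^ 2) ^ (N * K') * (2 ^ (d + 1) * (L * P ^ (2 * (N + 2)))) ^ k =
      P ^ (2 * (j + D')) * (Q ^ b * P ^ (2 * b + 6 * B + 2 * (N * K') + 2 * (N + 2) * k) *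
        (2 ^ (d + 1) * L) ^ k) := by
    have h1 : (2 ^ (d + 1) * (L * P ^ (2 * (N + 2)))) ^ k =
        (2 ^ (d + 1) * L) ^ k * P ^ (2 * (N + 2) * k) := by
      rw [← mul_assoc, mul_pow, ← pow_mul]
    rw [h1, mul_pow, ← pow_mul, ← pow_mul, ← pow_mul, ← pow_mul, ← pow_mul]
    rw [pow_add, pow_add, pow_add, mul_add, pow_add,
      show 2 * (3 * B) = 6 * B by ring]
    ring
  rw [e5]
  refine mul_le_mul_of_nonneg_left ?_ (by positivity)
  set E := 15 * (N + 1) * (k + K' + 1) with hE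
  have b1 : Q ^ b ≤ Q ^ E := by
    refine pow_le_pow_right₀ hQ1 (hb.trans ?_)
    rw [hE]; nlinarith
  have b2 : P ^ (2 * b + 6 * B + 2 * (N * K') + 2 * (N + 2) * k) ≤ P ^ E := by
    refine pow_le_pow_right₀ hP1 ?_
    have h1 : 2 * b + 6 * B ≤ 6 * (N * (k + K')) := by omega
    rw [hE]; nlinarith
  have b3 : (2 ^ (d + 1) * L) ^ k ≤ C ^ E := by
    refine (pow_le_pow_left₀ (by positivity) hCL k).trans (pow_le_pow_right₀ hC1 ?_)
    rw [hE]; nlinarith
  calc Q ^ b * P ^ (2 * b + 6 * B + 2 * (N * K') + 2 * (N + 2) * k) * (2 ^ (d + 1) * L) ^ k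
      ≤ Q ^ E * P ^ E * C ^ E := by
        refine mul_le_mul (mul_le_mul b1 b2 (by positivity) (by positivity)) b3 (by positivity)
          (by positivity)
    _ = (C * Q * P) ^ E := by rw [mul_pow, mul_pow]; ring

end Run7.h709.OD
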