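import Pool.Agent.Run7.h709.OD.Asm
import Pool.Agent.Run7.h809.OD.Den
import Pool.Agent.Run7.h809.OD.Zero3
import Pool.Agent.Run7.h594.OD.Near
import Pool.Agent.Run7.h159.OD.Rat
import Pool.Agent.Run7.h159.OD.Ric
import Pool.Agent.Run7.h600.OD.Theta
import Pool.Agent.Run7.h635.OD.Pig

/-!
# The main theorem, unconditionally
-/

set_option autoImplicit false

namespace Run7.h709.OD

open H809.OD

/-- **`S_Main` holds.** -/
theorem main_holds : S_Main :=
  main theta_holds
    (H809.OD.Inst.zero_est (ind theta_holds Run7.h159.OD.ric) Run7.h159.OD.rat)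
    (Run7.h635.OD.pig theta_holds (H594.OD.near theta_holds)) (grow theta_holds)
    (den theta_holds) size

end Run7.h709.OD
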