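import Pool.Agent.Run7.h709.OD.Grow

/-!
# Assembly, part 1: leading coefficients, the auxiliary function, choice of parameters
-/

set_option autoImplicit false

open PowerSeries

namespace Run7.h709.OD

open H809.OD

/-- leading coefficients multiply -/
theorem lead (U Φ : ℚ⟦X⟧) (n : ℕ) (h : ∀ i < n, coeff i Φ = 0) :
    coeff n (U * Φ) = coeff 0 U * coeff n Φ := by
  rw [coeff_mul, Finset.sum_eq_single (0, n)]
  · rintro ⟨i, j⟩ hij hne
    have h1 := Finset.HasAntidiagonal.mem_antidiagonal.1 hij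
    simp only at h1
    by_cases hj : j < n
    · simp [h j hj]
    · exfalso
      apply hne
      have : i = 0 := by omega
      have : j = n := by omega
      simp [*]
  · intro h0
    exact absurd (Finset.HasAntidiagonal.mem_antidiagonal.2 (by simp)) h0

/-- the auxiliary function -/
noncomputable def Phi (N d : ℕ) (F : ℚ⟦X⟧) (K D : ℕ) (c : ℕ → ℕ → ℕ → ℤ) : ℚ⟦X⟧ :=
  ∑ j ∈ Finset.range D, ∑ k ∈ Finset.range (K + 1), ∑ b ∈ Finset.range (N * K + 1),
    (c j k b : ℚ⟦X⟧) * row N d F j k b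

/-- its coefficient polynomials -/
noncomputable def cpoly (N d K D : ℕ) (c : ℕ → ℕ → ℕ → ℤ) (k b : ℕ) : Polynomial ℚ :=
  if k ≤ K ∧ b ≤ N * K then
    ∑ j ∈ Finset.range D, Polynomial.C ((c j k b : ℚ) * 2 ^ ((d + 1) * k)) * Polynomial.X ^ j
  else 0

theorem cpoly_coeff (N d K D : ℕ) (c : ℕ → ℕ → ℕ → ℤ) (j k b : ℕ) (hj : j < D) (hk : k ≤ K)
    (hb : b ≤ N * K) : (cpoly N d K D c k b).coeff j = (c j k b : ℚ) * 2 ^ ((d + 1) * k) := by
  unfold cpoly
  rw [if_pos ⟨hk, hb⟩, Polynomial.finsetSum_coeff, Finset.sum_eq_single j]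
  · rw [Polynomial.coeff_C_mul, Polynomial.coeff_X_pow, if_pos rfl, mul_one]
  · intro i _ hij
    rw [Polynomial.coeff_C_mul, Polynomial.coeff_X_pow, if_neg (fun h => hij h.symm), mul_zero]
  · intro h0
    exact absurd (Finset.mem_range.2 hj) h0

theorem cpoly_deg (N d K D : ℕ) (c : ℕ → ℕ → ℕ → ℤ) (k b : ℕ) :
    (cpoly N d K D c k b).natDegree ≤ D := by
  unfold cpoly
  split_ifs
  · refine Polynomial.natDegree_sum_le_of_forall_le _ _ fun j hj => ?_
    exact (Polynomial.natDegree_C_mul_X_pow_le _ _).trans (Finset.mem_range.1 hj).le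
  · simp

theorem cpoly_supp (N d K D : ℕ) (c : ℕ → ℕ → ℕ → ℤ) (k b : ℕ) (h : cpoly N d K D c k b ≠ 0) :
    k ≤ K ∧ b ≤ N * K := by
  unfold cpoly at h
  by_contra h1
  rw [if_neg h1] at h
  exact h rfl

theorem cpoly_sum (N d K D : ℕ) (c : ℕ → ℕ → ℕ → ℤ) (F : ℚ⟦X⟧) :
    ∑ k ∈ Finset.range (K + 1), ∑ b ∈ Finset.range (2 * N * K + 1),
      Polynomial.aeval u (cpoly N d K D c k b) * zt ^ b * (F * wi ^ N) ^ k = Phi N d F K D c := by
  unfold Phi
  have h1 : ∀ k ∈ Finset.range (K + 1), ∑ b ∈ Finset.range (2 * N * K + 1),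
      Polynomial.aeval u (cpoly N d K D c k b) * zt ^ b * (F * wi ^ N) ^ k =
      ∑ b ∈ Finset.range (N * K + 1), ∑ j ∈ Finset.range D,
        (c j k b : ℚ⟦X⟧) * row N d F j k b := by
    intro k hk
    have hk' : k ≤ K := by
      have := Finset.mem_range.1 hk
      omega
    rw [← Finset.sum_subset (s₁ := Finset.range (N * K + 1))]
    · refine Finset.sum_congr rfl fun b hb => ?_
      have hb' : b ≤ N * K := by
        have := Finset.mem_range.1 hb
        omega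
      unfold cpoly
      rw [if_pos ⟨hk', hb'⟩, map_sum, Finset.sum_mul, Finset.sum_mul]
      refine Finset.sum_congr rfl fun j _ => ?_
      unfold row
      rw [map_mul, Polynomial.aeval_C, map_pow, Polynomial.aeval_X, map_mul, map_pow]
      have e1 : algebraMap ℚ ℚ⟦X⟧ (c j k b : ℚ) = (c j k b : ℚ⟦X⟧) := by
        rw [map_intCast]
      have e2 : algebraMap ℚ ℚ⟦X⟧ 2 = 2 := by
        rw [map_ofNat]
      rw [e1, e2, mul_assoc (2 ^ (d + 1)) F, mul_pow (2 ^ (d + 1)) (F * wi ^ N) k, ← pow_mul]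
      ring
    · intro b hb
      rw [Finset.mem_range] at hb ⊢
      nlinarith
    · intro b _ hb
      have : ¬ (k ≤ K ∧ b ≤ N * K) := by
        rintro ⟨_, h2⟩
        exact hb (Finset.mem_range.2 (by omega))
      unfold cpoly
      rw [if_neg this]
      simp
  rw [Finset.sum_congr rfl h1, Finset.sum_comm]
  -- order of the sums
  have h2 : ∀ k ∈ Finset.range (K + 1), (∑ b ∈ Finset.range (N * K + 1), ∑ j ∈ Finset.range D,
      (c j k b : ℚ⟦X⟧) * row N d F j k b) = ∑ j ∈ Finset.range D, ∑ b ∈ Finset.range (N * K + 1),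
      (c j k b : ℚ⟦X⟧) * row N d F j k b := fun k _ => Finset.sum_comm
  rw [Finset.sum_comm, Finset.sum_congr rfl h2, Finset.sum_comm]

/-- choice of the parameter `λ` -/
theorem lam_exists (N : ℕ) : ∃ l : ℕ, 5 ≤ l ∧
    2 ^ 5 * (4 * ((((2 * l * (l + 1) + 1 + 1) * (2 * N * (2 * l * (l + 1) + 1) + 1) : ℕ) : ℝ))) ^ 2
      ≤ (2 : ℝ) ^ l := by
  have h1 := tendsto_pow_const_div_const_pow_of_one_lt 8 (r := (2 : ℝ)) (by norm_num)
  have hc : (0 : ℝ) < 1 / (2 ^ 14 * (2 * N + 1) ^ 2) := by positivity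
  have h2 := (h1.eventually (gt_mem_nhds hc)).and (Filter.eventually_ge_atTop 6)
  obtain ⟨n, h3, h4⟩ := h2.exists
  refine ⟨n - 1, by omega, ?_⟩
  obtain ⟨l, rfl⟩ : ∃ l, n = l + 1 := ⟨n - 1, by omega⟩
  rw [Nat.add_sub_cancel]
  rw [div_lt_div_iff₀ (by positivity) (by positivity)] at h3
  push_cast at h3 ⊢
  have h5 : (2 * (l : ℝ) * (l + 1) + 1 + 1) * (2 * N * (2 * l * (l + 1) + 1) + 1) ≤
      4 * (l + 1) ^ 4 * (2 * N + 1) := by
    have hl : (0 : ℝ) ≤ l := by positivity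
    have hN : (0 : ℝ) ≤ N := by positivity
    have e1 : 2 * (l : ℝ) * (l + 1) + 1 + 1 ≤ 2 * (l + 1) ^ 2 := by nlinarith
    have e2 : 2 * N * (2 * (l : ℝ) * (l + 1) + 1) + 1 ≤ (2 * N + 1) * (2 * (l + 1) ^ 2) := by
      nlinarith [mul_nonneg hN hl, mul_nonneg hN (mul_nonneg hl hl)]
    calc (2 * (l : ℝ) * (l + 1) + 1 + 1) * (2 * N * (2 * l * (l + 1) + 1) + 1) ≤
        (2 * (l + 1) ^ 2) * ((2 * N + 1) * (2 * (l + 1) ^ 2)) := by gcongr
      _ = _ := by ring
  calc (2 : ℝ) ^ 5 * (4 * ((2 * (l : ℝ) * (l + 1) + 1 + 1) * (2 * N * (2 * l * (l + 1) + 1) + 1))) ^ 2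
      ≤ (2 : ℝ) ^ 5 * (4 * (4 * ((l : ℝ) + 1) ^ 4 * (2 * N + 1))) ^ 2 := by gcongr
    _ = (2 : ℝ) ^ 13 * (((l : ℝ) + 1) ^ 8 * (2 * N + 1) ^ 2) := by ring
    _ ≤ (2 : ℝ) ^ l := by
        have : ((l : ℝ) + 1) ^ 8 * (2 ^ 14 * (2 * N + 1) ^ 2) < 1 * 2 ^ (l + 1) := h3
        rw [pow_succ (2 : ℝ) l] at this
        nlinarith

/-- the lower order terms -/
theorem asym (A B C ε : ℝ) (hε : 0 < ε) : ∀ᶠ x : ℕ in Filter.atTop,
    A + B * Real.log x + C * (Real.sqrt x * Real.log x) ≤ ε * x := by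
  have h1 : (fun x : ℝ => A + B * Real.log x + C * (Real.sqrt x * Real.log x)) =o[Filter.atTop]
      (fun x : ℝ => x) := by
    refine Asymptotics.IsLittleO.add (Asymptotics.IsLittleO.add ?_ ?_) ?_
    · exact Asymptotics.isLittleO_const_id_atTop A
    · exact Real.isLittleO_log_id_atTop.const_mul_left B
    · refine Asymptotics.IsLittleO.const_mul_left ?_ C
      have h2 := (Asymptotics.isBigO_refl (fun x : ℝ => Real.sqrt x) Filter.atTop).mul_isLittleO
        (isLittleO_log_rpow_atTop (r := 1 / 2) (by norm_num))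
      refine h2.congr' (Filter.EventuallyEq.refl _ _) ?_
      filter_upwards [Filter.eventually_ge_atTop 0] with x hx
      rw [← Real.sqrt_eq_rpow, Real.mul_self_sqrt hx]
  have h2 := (h1.bound hε).and (Filter.eventually_ge_atTop (0 : ℝ))
  filter_upwards [tendsto_natCast_atTop_atTop.eventually h2] with x hx
  have h3 := hx.1
  rw [Real.norm_eq_abs, Real.norm_eq_abs, abs_of_nonneg hx.2] at h3
  exact (le_abs_self _).trans h3

end Run7.h709.OD
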