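import Pool.Agent.Run7.h709.OD.AsmA

/-!
# Assembly, part 2: the arithmetic core
-/

set_option autoImplicit false

open PowerSeries

namespace Run7.h709.OD

open H809.OD

theorem coeff_Phi (N d K D n s : ℕ) (F : ℚ⟦X⟧) (c : ℕ → ℕ → ℕ → ℤ) :
    coeff n (w ^ s * Phi N d F K D c) = ∑ j ∈ Finset.range D, ∑ k ∈ Finset.range (K + 1),
      ∑ b ∈ Finset.range (N * K + 1), (c j k b : ℚ) * coeff n (w ^ s * row N d F j k b) := by
  unfold Phi
  rw [Finset.mul_sum, map_sum]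
  refine Finset.sum_congr rfl fun j _ => ?_
  rw [Finset.mul_sum, map_sum]
  refine Finset.sum_congr rfl fun k _ => ?_
  rw [Finset.mul_sum, map_sum]
  refine Finset.sum_congr rfl fun b _ => ?_
  rw [← coeff_C_mul, map_intCast]
  congr 1
  ring

/-- upper bound for the coefficients of the auxiliary function -/
theorem upper (N d K D : ℕ) (F : ℚ⟦X⟧) (c : ℕ → ℕ → ℕ → ℤ) (hc : ∀ j k b, |c j k b| < 2 ^ D)
    (C : ℝ) (hC : 1 ≤ C)
    (hg : ∀ r : ℝ, 0 < r → r < 1 → ∀ K D n j k b : ℕ, j ≤ D → k ≤ K → b ≤ N * K →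
      |((coeff n (w ^ (D + 4 * N * K) * row N d F j k b) : ℚ) : ℝ)| * r ^ n ≤
        (2 / (1 - r)) ^ (2 * D) * (C * (n + 1) * (2 / (1 - r))) ^ (15 * (N + 1) * (K + 1)))
    (m T x n : ℕ) (hm : 1 ≤ m) (hn : n ≤ m * T) (hnx : n ≤ x) :
    |((coeff n (w ^ (D + 4 * N * K) * Phi N d F K D c) : ℚ) : ℝ)| ≤
      ((D * ((K + 1) * (N * K + 1)) : ℕ) : ℝ) * (2 ^ D * (2 ^ T * ((4 * m) ^ (2 * D) *
        (C * (x + 1) * (4 * m)) ^ (15 * (N + 1) * (K + 1))))) := by
  set B : ℝ := 2 ^ T * ((4 * m) ^ (2 * D) * (C * (x + 1) * (4 * m)) ^ (15 * (N + 1) * (K + 1)))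
    with hB
  have hm' : (1 : ℝ) ≤ m := by exact_mod_cast hm
  have hrow : ∀ j k b : ℕ, j ≤ D → k ≤ K → b ≤ N * K →
      |((coeff n (w ^ (D + 4 * N * K) * row N d F j k b) : ℚ) : ℝ)| ≤ B := by
    intro j k b hj hk hb
    have hr0 : (0 : ℝ) < 1 - 1 / (2 * m) := by
      rw [sub_pos, div_lt_one (by positivity)]
      linarith
    have hr1 : (1 : ℝ) - 1 / (2 * m) < 1 := by
      have : (0 : ℝ) < 1 / (2 * m) := by positivity
      linarith
    have h1 := hg _ hr0 hr1 K D n j k b hj hk hb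
    have h2 : (2 : ℝ) / (1 - (1 - 1 / (2 * m))) = 4 * m := by
      field_simp
      ring
    rw [h2] at h1
    have h3 : (1 / 2 : ℝ) ^ T ≤ (1 - 1 / (2 * m)) ^ n := by
      have e1 : (1 / 2 : ℝ) ≤ (1 - 1 / (2 * m)) ^ m := by
        have e2 := one_add_mul_le_pow (a := -(1 / (2 * (m : ℝ)))) (by
          have : (1 : ℝ) / (2 * m) ≤ 1 := by
            rw [div_le_one (by positivity)]
            linarith
          linarith) m
        rw [← sub_eq_add_neg] at e2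
        refine le_trans (le_of_eq ?_) e2
        field_simp
        ring
      calc (1 / 2 : ℝ) ^ T ≤ ((1 - 1 / (2 * m)) ^ m) ^ T := by gcongr
        _ = (1 - 1 / (2 * m)) ^ (m * T) := by rw [← pow_mul]
        _ ≤ _ := pow_le_pow_of_le_one hr0.le hr1.le hn
    have h4 : |((coeff n (w ^ (D + 4 * N * K) * row N d F j k b) : ℚ) : ℝ)| * (1 / 2) ^ T ≤
        (4 * m) ^ (2 * D) * (C * (x + 1) * (4 * m)) ^ (15 * (N + 1) * (K + 1)) := by
      refine (mul_le_mul_of_nonneg_left h3 (abs_nonneg _)).trans (h1.trans ?_)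
      have : (n : ℝ) ≤ x := by exact_mod_cast hnx
      gcongr
    calc |((coeff n (w ^ (D + 4 * N * K) * row N d F j k b) : ℚ) : ℝ)| =
        2 ^ T * (|((coeff n (w ^ (D + 4 * N * K) * row N d F j k b) : ℚ) : ℝ)| * (1 / 2) ^ T) := by
          rw [mul_comm (|_|), ← mul_assoc, ← mul_pow]
          norm_num
      _ ≤ B := by
          rw [hB]
          gcongr
  have hB0 : 0 ≤ B := by positivity
  rw [coeff_Phi]
  push_cast
  have h5 : ∀ j ∈ Finset.range D, ∀ k ∈ Finset.range (K + 1), ∀ b ∈ Finset.range (N * K + 1),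
      |(c j k b : ℝ) * ((coeff n (w ^ (D + 4 * N * K) * row N d F j k b) : ℚ) : ℝ)| ≤
        2 ^ D * B := by
    intro j hj k hk b hb
    rw [abs_mul]
    have e1 : |(c j k b : ℝ)| ≤ 2 ^ D := by
      have := (hc j k b).le
      exact_mod_cast this
    rw [Finset.mem_range] at hj hk hb
    exact mul_le_mul e1 (hrow j k b (by omega) (by omega) (by omega)) (abs_nonneg _) (by positivity)
  refine (Finset.abs_sum_le_sum_abs _ _).trans ?_
  calc _ ≤ ∑ j ∈ Finset.range D, ((K + 1 : ℕ) : ℝ) * (((N * K + 1 : ℕ) : ℝ) * (2 ^ D * B)) := by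
        refine Finset.sum_le_sum fun j hj => ?_
        refine (Finset.abs_sum_le_sum_abs _ _).trans ?_
        refine (Finset.sum_le_card_nsmul _ _ (((N * K + 1 : ℕ) : ℝ) * (2 ^ D * B)) ?_).trans
          (le_of_eq ?_)
        · intro k hk
          refine (Finset.abs_sum_le_sum_abs _ _).trans ?_
          refine (Finset.sum_le_card_nsmul _ _ (2 ^ D * B) ?_).trans (le_of_eq ?_)
          · intro b hb
            exact h5 j hj k hk b hb
          · rw [Finset.card_range, nsmul_eq_mul]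
        · rw [Finset.card_range, nsmul_eq_mul]
    _ = _ := by
        rw [Finset.sum_const, Finset.card_range, nsmul_eq_mul]
        push_cast
        ring

theorem integral (N d K D n s E : ℕ) (F : ℚ⟦X⟧) (c : ℕ → ℕ → ℕ → ℤ)
    (hd : ∀ j k b : ℕ, k ≤ K → ∃ z : ℤ,
      (E : ℚ) ^ K * coeff n (w ^ s * row N d F j k b) = z) :
    ∃ z : ℤ, (E : ℚ) ^ K * coeff n (w ^ s * Phi N d F K D c) = z := by
  choose! z hz using hd
  refine ⟨∑ j ∈ Finset.range D, ∑ k ∈ Finset.range (K + 1),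
      ∑ b ∈ Finset.range (N * K + 1), c j k b * z j k b, ?_⟩
  rw [coeff_Phi]
  push_cast
  rw [Finset.mul_sum]
  refine Finset.sum_congr rfl fun j _ => ?_
  rw [Finset.mul_sum]
  refine Finset.sum_congr rfl fun k hk => ?_
  rw [Finset.mul_sum]
  refine Finset.sum_congr rfl fun b _ => ?_
  rw [← hz j k b (by have := Finset.mem_range.1 hk; omega)]
  ring

/-- divisibility by `2^M` -/
theorem two_dvd (h : Theta) (n s M E K : ℕ) (Φ U g : ℚ⟦X⟧) (a z : ℤ) (ha : Odd a)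
    (hU : coeff 0 U = (a : ℚ)) (hg : g ∈ Ser2) (hUg : U * Φ = 2 ^ M * g)
    (hn : ∀ i < n, coeff i Φ = 0) (hz : (E : ℚ) ^ K * coeff n (w ^ s * Φ) = z) :
    (2 : ℤ) ^ M ∣ z := by
  have h1 : coeff n (w ^ s * Φ) = coeff n Φ := by
    rw [lead _ _ _ hn, coeff_zero_eq_constantCoeff_apply, map_pow,
      ← coeff_zero_eq_constantCoeff_apply, h.w_zero, one_pow, one_mul]
  have h2 : (a : ℚ) * coeff n Φ = 2 ^ M * coeff n g := by
    rw [← hU, ← lead _ _ _ hn, hUg]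
    have : (2 : ℚ⟦X⟧) ^ M = PowerSeries.C (2 ^ M : ℚ) := by
      rw [map_pow, map_ofNat]
    rw [this, coeff_C_mul]
  obtain ⟨g', rfl⟩ := hg
  rw [coeff_map] at h2
  obtain ⟨y, hy⟩ : ∃ y : Z2, y = coeff n g' := ⟨_, rfl⟩
  rw [← hy] at h2
  have h3 : Odd (y : ℚ).den := y.2
  have h4 : (((y : ℚ).num : ℤ) : ℚ) = (y : ℚ) * ((y : ℚ).den : ℚ) := (Rat.mul_den_eq_num _).symm
  rw [h1] at hz
  have h5 : (a * ((y : ℚ).den : ℤ)) * z = 2 ^ M * ((E : ℤ) ^ K * (y : ℚ).num) := by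
    have : ((a * ((y : ℚ).den : ℤ) * z : ℤ) : ℚ) = ((2 ^ M * ((E : ℤ) ^ K * (y : ℚ).num) : ℤ) : ℚ) := by
      push_cast
      rw [← hz, h4]
      have h6 : (Z2.subtype y : ℚ) = (y : ℚ) := rfl
      rw [h6] at h2
      calc (a : ℚ) * ((y : ℚ).den : ℚ) * ((E : ℚ) ^ K * coeff n Φ) =
          ((y : ℚ).den : ℚ) * (E : ℚ) ^ K * ((a : ℚ) * coeff n Φ) := by ring
        _ = _ := by rw [h2]; ring
    exact_mod_cast this
  have h7 : IsCoprime ((2 : ℤ) ^ M) (a * ((y : ℚ).den : ℤ)) := by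
    apply IsCoprime.pow_left
    have : Odd (a * ((y : ℚ).den : ℤ)) := ha.mul (by exact_mod_cast h3)
    obtain ⟨t, ht⟩ := this
    rw [ht]
    exact ⟨-t, 1, by ring⟩
  exact h7.dvd_of_dvd_mul_left ⟨_, h5⟩

end Run7.h709.OD
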